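import Pool.Agent.H58.UED.Main

/-!
# Equality of degrees in `F[t]` by one existential equation for all finite fields (MP_8315be_lc)

In the first order language `{0, 1, t, -, +, *}` there are formulas `φ(x, y)` and `ψ(x, y)`, each of the form
`∃ y₁ … ∃ y_m, s = s'` with terms `s, s'`, such that for every finite field `F` they define the relations
`deg f = deg g` and `deg f ≤ deg g` in `F[t]`.
-/

set_option autoImplicit false

open Polynomial FirstOrder

namespace Pool.Agent.Results.MP_8315be_lc.UniformOneEquation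

open Pool.Agent.H58.UED

theorem result :
    ∃ φ ψ : Lrt.Formula (Fin 2),
      φ.IsExistential ∧ ψ.IsExistential ∧
      (∃ (m : ℕ) (s s' : Lrt.Term (Fin 2 ⊕ Fin m)), φ = (Language.Term.bdEqual s s').exs) ∧
      (∃ (m : ℕ) (s s' : Lrt.Term (Fin 2 ⊕ Fin m)), ψ = (Language.Term.bdEqual s s').exs) ∧
      ∀ (F : Type) [Field F] [Finite F] (f g : F[X]),
        (Holds F φ f g ↔ f.degree = g.degree) ∧ (Holds F ψ f g ↔ f.degree ≤ g.degree) :=
  ⟨phiEq, phiLe, bdEqual_exs_isExistential _ _, bdEqual_exs_isExistential _ _,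
    ⟨10, _, _, rfl⟩, ⟨5, _, _, rfl⟩, fun F _ _ f g => ⟨holds_phiEq F f g, holds_phiLe F f g⟩⟩

end Pool.Agent.Results.MP_8315be_lc.UniformOneEquation
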